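import Pool.Agent.R700.RDC

set_option autoImplicit false

namespace Pool.Agent.Results.MP_10193a_al.Commutative

open Pool.Agent.R700 Pool.Agent.R700.RDC

universe u

/-- A centrally essential endomorphism ring of an abelian group which is right distributive (in
particular, one which is right uniserial) is commutative. -/
theorem result (A : Type u) [AddCommGroup A] (hC : CentrallyEssential (AddMonoid.End A)) :
    (RightDistributive (AddMonoid.End A) → ∀ f g : AddMonoid.End A, f * g = g * f) ∧
    (RightUniserial (AddMonoid.End A) → ∀ f g : AddMonoid.End A, f * g = g * f) :=
  ⟨fun h => comm_of hC h, fun h => comm_of hC h.distributive⟩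

end Pool.Agent.Results.MP_10193a_al.Commutative
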